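import Pool.Agent.Helper14.LK.St
import Pool.Agent.Helper14.LK.Basic

/-!
Project LK (MP_58b586_gt), module VEF: the vector field of Moser's argument.
-/

set_option autoImplicit false

namespace Pool.Agent.Helper42.LK

open Pool.Agent.Helper14.LK
open scoped ContDiff Topology
open MeasureTheory Set Filter

/-- the pulled back form as a function of the linear map -/
private noncomputable def pbk {n : ℕ} (A : WW n →L[ℝ] WW n) : WW n →L[ℝ] (WW n →L[ℝ] ℝ) :=
  ((ContinuousLinearMap.compL ℝ (WW n) (WW n) ℝ).flip A).comp ((omL n).comp A)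

private lemma pbk_apply {n : ℕ} (A : WW n →L[ℝ] WW n) (a b : WW n) :
    pbk A a b = om (A a) (A b) := by
  simp [pbk]

private lemma contDiff_pbk {n : ℕ} : ContDiff ℝ ∞ (fun A : WW n →L[ℝ] WW n => pbk A) := by
  unfold pbk
  exact ((ContinuousLinearMap.compL ℝ (WW n) (WW n) ℝ).flip.contDiff).clm_comp
    (contDiff_const.clm_comp contDiff_id)

/-- the interpolated form -/
private noncomputable def Bf {n : ℕ} (β : ℝ) (A : WW n →L[ℝ] WW n) :
    WW n →L[ℝ] (WW n →L[ℝ] ℝ) := (1 - β) • omL n + β • pbk A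

private lemma Bf_apply {n : ℕ} (β : ℝ) (A : WW n →L[ℝ] WW n) (a b : WW n) :
    Bf β A a b = (1 - β) * om a b + β * om (A a) (A b) := by
  simp [Bf, pbk_apply]

private lemma exists_equiv {n : ℕ} (β : ℝ) (h0 : 0 ≤ β) (h1 : β ≤ 1) (A : WW n →L[ℝ] WW n)
    (hA : ∀ a, a ≠ 0 → 0 < om (A a) (A (JJ a))) :
    ∃ e : WW n ≃L[ℝ] (WW n →L[ℝ] ℝ), (e : WW n →L[ℝ] (WW n →L[ℝ] ℝ)) = Bf β A := by
  have hinj : Function.Injective (Bf β A : WW n →ₗ[ℝ] (WW n →L[ℝ] ℝ)) := by
    rw [injective_iff_map_eq_zero]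
    intro a ha
    by_contra hne
    have e : Bf β A a (JJ a) = 0 := by
      have : Bf β A a = 0 := ha
      rw [this]; rfl
    rw [Bf_apply] at e
    have p1 := om_pos_self hne
    have p2 := hA a hne
    rcases h0.eq_or_lt with h | h
    · rw [← h] at e
      simp only [sub_zero, one_mul, zero_mul, add_zero] at e
      linarith
    · have q1 : 0 ≤ (1 - β) * om a (JJ a) := mul_nonneg (by linarith) p1.le
      have q2 : 0 < β * om (A a) (A (JJ a)) := mul_pos h p2
      linarith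
  have hdim : Module.finrank ℝ (WW n) = Module.finrank ℝ (WW n →L[ℝ] ℝ) := by
    rw [← (LinearMap.toContinuousLinearMap (𝕜 := ℝ) (E := WW n) (F' := ℝ)).finrank_eq]
    exact (Subspace.dual_finrank_eq (K := ℝ) (V := WW n)).symm
  refine ⟨(LinearMap.linearEquivOfInjective (Bf β A : WW n →ₗ[ℝ] (WW n →L[ℝ] ℝ)) hinj
    hdim).toContinuousLinearEquiv, ?_⟩
  exact ContinuousLinearMap.ext fun a => rfl

private lemma deriv_beta (t : ℝ) (ht : 1 ≤ |t|) : deriv Real.smoothTransition t = 0 := by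
  rcases le_total 0 t with h | h
  · rw [abs_of_nonneg h] at ht
    have hm : IsLocalMax Real.smoothTransition t := by
      refine Filter.Eventually.of_forall fun x => ?_
      rw [Real.smoothTransition.one_of_one_le ht]
      exact Real.smoothTransition.le_one x
    exact hm.deriv_eq_zero
  · have hm : IsLocalMin Real.smoothTransition t := by
      refine Filter.Eventually.of_forall fun x => ?_
      rw [Real.smoothTransition.zero_of_nonpos h]
      exact Real.smoothTransition.nonneg x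
    exact hm.deriv_eq_zero

theorem hVEF : StVEF := by
  intro n F σ S R hF hσ hR hS hplane htame hiso
  set β : ℝ → ℝ := Real.smoothTransition with hβ
  have hβs : ContDiff ℝ ∞ β := Real.smoothTransition.contDiff
  have hb0 : ∀ t, 0 ≤ β t := Real.smoothTransition.nonneg
  have hb1 : ∀ t, β t ≤ 1 := Real.smoothTransition.le_one
  set B : ℝ → ℝ × WW n → (WW n →L[ℝ] (WW n →L[ℝ] ℝ)) :=
    fun t p => Bf (β t) (fderiv ℝ (F p.1) p.2) with hB
  set V : ℝ → ℝ × WW n → WW n :=
    fun t p => (-deriv β t) • (B t p).inverse (σ p.1 p.2) with hV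
  have hequiv : ∀ t p, ∃ e : WW n ≃L[ℝ] (WW n →L[ℝ] ℝ),
      (e : WW n →L[ℝ] (WW n →L[ℝ] ℝ)) = B t p := fun t p =>
    exists_equiv (β t) (hb0 t) (hb1 t) _ (htame p.1 p.2)
  have hDF : ContDiff ℝ ∞ (fun p : ℝ × (ℝ × WW n) => fderiv ℝ (F p.2.1) p.2.2) := by
    have h1 : ContDiff ℝ ∞ (Function.uncurry fun (p : ℝ × (ℝ × WW n)) (w : WW n) => F p.2.1 w) := by
      have : (Function.uncurry fun (p : ℝ × (ℝ × WW n)) (w : WW n) => F p.2.1 w) =
          Function.uncurry F ∘ fun q : (ℝ × (ℝ × WW n)) × WW n => (q.1.2.1, q.2) := rfl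
      rw [this]
      exact hF.comp ((contDiff_fst.comp (contDiff_snd.comp contDiff_fst)).prodMk contDiff_snd)
    exact ContDiff.fderiv h1 (contDiff_snd.comp contDiff_snd) (by simp)
  have hBs : ContDiff ℝ ∞ (fun p : ℝ × (ℝ × WW n) => B p.1 p.2) := by
    have h1 : ContDiff ℝ ∞ (fun p : ℝ × (ℝ × WW n) => β p.1) := hβs.comp contDiff_fst
    have h2 : ContDiff ℝ ∞ (fun p : ℝ × (ℝ × WW n) => pbk (fderiv ℝ (F p.2.1) p.2.2)) :=
      contDiff_pbk.comp hDF
    have hbs : IsBoundedSMul ℝ (WW n →L[ℝ] WW n →L[ℝ] ℝ) :=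
      @NormedSpace.toIsBoundedSMul ℝ (WW n →L[ℝ] WW n →L[ℝ] ℝ) _ _ _
    have h3 : ContDiff ℝ ∞ (fun p : ℝ × (ℝ × WW n) => (1 - β p.1) • omL n) :=
      ContDiff.smul (contDiff_const.sub h1) contDiff_const
    have h4 : ContDiff ℝ ∞ (fun p : ℝ × (ℝ × WW n) =>
        β p.1 • pbk (fderiv ℝ (F p.2.1) p.2.2)) := ContDiff.smul h1 h2
    exact h3.add h4
  have hdβ : ContDiff ℝ ∞ (deriv β) := (contDiff_infty_iff_deriv.1 hβs).2
  have hVs : ContDiff ℝ ∞ (Function.uncurry V) := by
    have hinv : ContDiff ℝ ∞ (fun p : ℝ × (ℝ × WW n) => (B p.1 p.2).inverse) := by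
      rw [contDiff_iff_contDiffAt]
      intro p
      obtain ⟨e, he⟩ := hequiv p.1 p.2
      have h3 : ContDiffAt ℝ ∞ ContinuousLinearMap.inverse (B p.1 p.2) := by
        rw [← he]
        exact contDiffAt_map_inverse e
      exact h3.comp p hBs.contDiffAt
    have hσ2 : ContDiff ℝ ∞ (fun p : ℝ × (ℝ × WW n) => σ p.2.1 p.2.2) :=
      hσ.comp contDiff_snd
    exact ((hdβ.comp contDiff_fst).neg).smul (hinv.clm_apply hσ2)
  have hBV : ∀ t p, B t p (V t p) = (-deriv β t) • σ p.1 p.2 := by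
    intro t p
    obtain ⟨e, he⟩ := hequiv t p
    rw [hV]
    simp only [map_smul]
    congr 1
    rw [← he, ContinuousLinearMap.inverse_equiv]
    exact e.apply_symm_apply _
  have heq : ∀ t r w b, (1 - β t) * om (V t (r, w)) b +
      β t * om (fderiv ℝ (F r) w (V t (r, w))) (fderiv ℝ (F r) w b) =
        - (deriv β t * σ r w b) := by
    intro t r w b
    have h := congrArg (fun L : WW n →L[ℝ] ℝ => L b) (hBV t (r, w))
    simp only [hB] at h
    rw [Bf_apply] at h
    rw [h]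
    simp
  refine ⟨β, V, hβs, Real.smoothTransition.zero, Real.smoothTransition.one, hVs, heq, ?_, ?_⟩
  · intro t r w h
    rcases h with h | h | h
    · simp only [hV, hR r w h, map_zero, smul_zero]
    · simp only [hV, hS r w h, map_zero, smul_zero]
    · have : deriv β t = 0 := deriv_beta t h
      simp only [hV, this, neg_zero, zero_smul]
  · intro t x
    set v := V t (0, (x, 0)) with hv
    by_contra hne
    set a : WW n := (0, v.2) with ha
    have ha0 : a ≠ 0 := by
      intro h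
      exact hne (congrArg Prod.snd h)
    have e1 := heq t 0 (x, 0) (-v.2, 0)
    rw [hplane, mul_zero, neg_zero, ← hv] at e1
    have hsplit : v = (v.1, 0) + a := by
      rw [ha]; simp
    have hJ : JJ a = (-v.2, 0) := by
      rw [JJ_apply, ha]
    rw [← hJ] at e1
    have e2 : om v (JJ a) = om a (JJ a) := by
      have h0 : om ((v.1, 0) : WW n) (JJ a) = 0 := by
        rw [hJ]; simp [om]
      calc om v (JJ a) = om ((v.1, 0) + a) (JJ a) := by rw [← hsplit]
        _ = om a (JJ a) := by rw [om_add_left, h0, zero_add]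
    have e3 : om (fderiv ℝ (F 0) (x, 0) v) (fderiv ℝ (F 0) (x, 0) (JJ a)) =
        om (fderiv ℝ (F 0) (x, 0) a) (fderiv ℝ (F 0) (x, 0) (JJ a)) := by
      have h0 : om (fderiv ℝ (F 0) (x, 0) ((v.1, 0) : WW n)) (fderiv ℝ (F 0) (x, 0) (JJ a)) = 0 := by
        rw [hJ]
        exact hiso x v.1 (-v.2)
      calc om (fderiv ℝ (F 0) (x, 0) v) (fderiv ℝ (F 0) (x, 0) (JJ a))
          = om (fderiv ℝ (F 0) (x, 0) ((v.1, 0) + a)) (fderiv ℝ (F 0) (x, 0) (JJ a)) := by
            rw [← hsplit]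
        _ = _ := by rw [map_add, om_add_left, h0, zero_add]
    rw [e2, e3] at e1
    have p1 := om_pos_self ha0
    have p2 := htame 0 (x, 0) a ha0
    rcases (hb0 t).eq_or_lt with h | h
    · rw [← h] at e1
      simp only [sub_zero, one_mul, zero_mul, add_zero] at e1
      linarith
    · have q1 : 0 ≤ (1 - β t) * om a (JJ a) := mul_nonneg (by linarith [hb1 t]) p1.le
      have q2 : 0 < β t * om (fderiv ℝ (F 0) (x, 0) a) (fderiv ℝ (F 0) (x, 0) (JJ a)) :=
        mul_pos h p2
      linarith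

end Pool.Agent.Helper42.LK
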